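import Pool.Agent.MP_3e257e_al.Main

/-!
For an odd prime `p` and an irreducible character of degree prime to `p` of any finite group,
the rationality level exceeds `max ell 1` by at most `log_p (|P| / k)`, where `k` counts the
conjugacy classes of `G` meeting the centre of the Sylow subgroup `P`.
-/

set_option autoImplicit false

namespace Pool.Agent.Results.MP_3e257e_al.CentralClasses

open Pool.Agent.MP_3e257e_al

theorem result (G : Type) [Group G] [Finite G] (p : ℕ) (hp : p.Prime) (hp2 : p ≠ 2)
    (P : Sylow p G) (V : FDRep ℂ G) (hV : CategoryTheory.Simple V)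
    (hd : ¬ p ∣ Module.finrank ℂ V) :
    p ^ lev p V.character * centralClasses (P : Subgroup G) ≤
      p ^ max (ell p fun v : (P : Subgroup G) => V.character v) 1 *
        Nat.card (P : Subgroup G) := by
  have := Fact.mk hp
  have h := main_le hp2 P (χ := V.character) ⟨V, hV, rfl⟩ fun ⟨z, hz⟩ => hd (by
    rw [FDRep.char_one] at hz
    exact Int.natCast_dvd_natCast.mp ⟨z, by exact_mod_cast hz⟩)
  refine le_trans ?_ (Nat.mul_le_mul_left _ h)
  rw [← mul_assoc, ← pow_add]
  exact Nat.mul_le_mul_right _ (Nat.pow_le_pow_right hp.pos le_add_tsub)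

end Pool.Agent.Results.MP_3e257e_al.CentralClasses
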