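import Pool.Agent.MP_3e257e_al.CycB

/-!
The question has a positive answer for every finite group each of whose composition factors has
cyclic Sylow `p`-subgroups, or has no element of order `p ^ 2`, or is alternating, or is a
classical group in characteristic `p` (linear if `p = 2`).
-/

set_option autoImplicit false

namespace Pool.Agent.Results.MP_3e257e_al.CompositionFactors

open Pool.Agent.MP_3e257e_al

theorem result (G : Type) [Group G] [Finite G] (p : ℕ) (hp : p.Prime)
    (hG : ∀ (H : Subgroup G) (N : Subgroup H) [N.Normal], H.IsSubnormal → IsSimpleGroup (H ⧸ N) →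
      Allowed p (H ⧸ N))
    (P : Sylow p G) (V : FDRep ℂ G) (hV : CategoryTheory.Simple V)
    (hd : ¬ p ∣ Module.finrank ℂ V) (hl : 2 ≤ lev p V.character) :
    lev p V.character = ell p fun v : (P : Subgroup G) => V.character v :=
  good_of_cl hp (cl_of_factors _ G rfl fun H N _ h1 h2 => cl_of_allowed hp (hG H N h1 h2))
    P V hV hd hl

end Pool.Agent.Results.MP_3e257e_al.CompositionFactors
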