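import Pool.Agent.MP_3e257e_al.RFin

/-!
For every prime and every class of simple groups, the question for the finite groups whose
reachable sections lie in the class is equivalent to a congruence for the almost quasi-simple
groups among them.
-/

set_option autoImplicit false

namespace Pool.Agent.Results.MP_3e257e_al.Reduction

open Pool.Agent.MP_3e257e_al

theorem result (p : ℕ) (hp : p.Prime) (𝒯 : ∀ (T : Type) [Group T], Prop) :
    (∀ (G : Type) [Group G] [Finite G], SecIn p 𝒯 G → LevEqEll p G) ↔
      ∀ (X : Type) [Group X] [Finite X] (V : FDRep ℂ X) (M : Subgroup X), AlmostQS p V M →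
        SecIn p 𝒯 X → TopCong p V.character :=
  ⟨fun H _ _ _ V M hV hX => top_of_good hp ⟨V, rfl⟩ (good_of_all hp
      (fun K _ _ h => H K (cl_iff.mp h)) (cl_iff.mpr hX)
      (IsIrr.of_res ⟨V, rfl⟩ (ι := M.subtype) hV.2.2.2.2.2.2.2.1)
      (by simpa [nat_pInt] using hV.2.1)),
    fun H _ _ _ hG => good_of_red hp (cl_iff.mpr hG) fun X _ _ V M hV h =>
      good_of_top hp ⟨V, rfl⟩ (H X V M hV (cl_iff.mp h))⟩

end Pool.Agent.Results.MP_3e257e_al.Reduction
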